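import Pool.Agent.T9h16.QL.Spec
import Pool.Agent.T9h12.QC.AllTV

set_option autoImplicit false
set_option linter.unusedSectionVars false

/-!
# Piece (H3) of QL: the total variation distance made by all the stars of one exchange, density `a / L`
-/

namespace Pool.Agent.T9h12.QL

open Finset
open Pool.Agent.PC34 (prob)
open Pool.Agent.T9h34.Q
open Pool.Agent.T9h16.QL
open Pool.Agent.T9h68.QC (prob_eq)
open Pool.Agent.T9h12.QC (Par getC updC get_updC upd_updC upd_getC stK rel stK_congr base_union
  all_eq card_lf)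

section steps
variable {X E Ω : Type} [Fintype X] [Fintype Ω] [DecidableEq E]

open Classical in
/-- the number of pairs of a parameter and a sample with the property -/
noncomputable def cnt (g : Ω → Finset E) (Θ : X → Finset E → Prop) : ℝ :=
  ∑ x, ∑ o : Ω, if Θ x (g o) then (1 : ℝ) else 0

/-- One star: it depends on the coordinates `get x`, which can be changed. -/
theorem one_step (g : Ω → Finset E) {P : Type} [Fintype P] (get : X → P) (upd : X → P → X)
    (h1 : ∀ x p, get (upd x p) = p) (h2 : ∀ x p q, upd (upd x p) q = upd x q)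
    (h3 : ∀ x, upd x (get x) = x) (st : P → Finset E) {δ : ℝ}
    (hst : ∀ Θ : Finset E → Prop,
      ∑ p : P, ∑ o : Ω, (open Classical in if Θ (g o ∪ st p) then (1 : ℝ) else 0) ≤
        Fintype.card P * ((∑ o : Ω, (open Classical in if Θ (g o) then (1 : ℝ) else 0)) + δ))
    (hP : 0 < Fintype.card P) (Θ : X → Finset E → Prop)
    (hΘ : ∀ x p G, Θ (upd x p) G ↔ Θ x G) :
    cnt g (fun x G => Θ x (G ∪ st (get x))) ≤ cnt g Θ + Fintype.card X * δ := by
  classical
  have hP' : (0 : ℝ) < Fintype.card P := by exact_mod_cast hP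
  let e : X × P ≃ X × P :=
    { toFun := fun x => (upd x.1 x.2, get x.1)
      invFun := fun x => (upd x.1 x.2, get x.1)
      left_inv := fun x => by simp [h1, h2, h3]
      right_inv := fun x => by simp [h1, h2, h3] }
  set H : X → ℝ := fun x => ∑ o : Ω, if Θ x (g o ∪ st (get x)) then (1 : ℝ) else 0 with hH
  have h4 : ∑ x : X × P, H (upd x.1 x.2) = ∑ x : X × P, H x.1 :=
    Fintype.sum_equiv e _ _ fun x => rfl
  rw [Fintype.sum_prod_type, Fintype.sum_prod_type] at h4
  have h5 : ∑ x : X, ∑ _p : P, H x = Fintype.card P * ∑ x, H x := by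
    rw [mul_sum]
    refine sum_congr rfl fun x _ => ?_
    rw [sum_const, card_univ, nsmul_eq_mul]
  have h6 : ∀ x : X, ∑ p : P, H (upd x p) ≤ Fintype.card P *
      ((∑ o : Ω, if Θ x (g o) then (1 : ℝ) else 0) + δ) := by
    intro x
    refine le_trans (le_of_eq ?_) (hst (Θ x))
    refine sum_congr rfl fun p _ => sum_congr rfl fun G _ => ?_
    rw [h1]
    exact if_congr (hΘ _ _ _) rfl rfl
  have h7 := sum_le_sum fun x (_ : x ∈ (univ : Finset X)) => h6 x
  rw [h4, h5, ← mul_sum] at h7
  have h8 := le_of_mul_le_mul_left h7 hP'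
  rw [sum_add_distrib, sum_const, card_univ, nsmul_eq_mul] at h8
  exact h8

/-- All stars, one after the other. -/
theorem all_steps (g : Ω → Finset E) {κ : Type} [DecidableEq κ] (S : κ → X → Finset E) (r : κ → X → X → Prop) {δ : ℝ}
    (I : Finset κ)
    (hstep : ∀ i ∈ I, ∀ Θ : X → Finset E → Prop,
      (∀ x y G, r i x y → (Θ x G ↔ Θ y G)) →
      cnt g (fun x G => Θ x (G ∪ S i x)) ≤ cnt g Θ + Fintype.card X * δ)
    (hS : ∀ i ∈ I, ∀ k ∈ I, k ≠ i → ∀ x y, r i x y → S k x = S k y)
    (Θ : X → Finset E → Prop) (hΘ : ∀ i ∈ I, ∀ x y G, r i x y → (Θ x G ↔ Θ y G)) :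
    cnt g (fun x G => Θ x (G ∪ I.biUnion fun i => S i x)) ≤
      cnt g Θ + I.card * (Fintype.card X * δ) := by
  classical
  induction I using Finset.induction_on with
  | empty => simp
  | insert i I hi ih =>
    have hm : ∀ k ∈ I, k ∈ insert i I := fun k hk => mem_insert_of_mem hk
    have ih' := ih (fun k hk => hstep k (hm k hk))
      (fun k hk l hl => hS k (hm k hk) l (hm l hl)) (fun k hk => hΘ k (hm k hk))
    have h1 := hstep i (mem_insert_self _ _) (fun x G => Θ x (G ∪ I.biUnion fun i => S i x)) ?_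
    · have h2 : (fun x G => Θ x (G ∪ (insert i I).biUnion fun i => S i x)) =
          fun x G => Θ x ((G ∪ S i x) ∪ I.biUnion fun i => S i x) := by
        funext x G
        rw [biUnion_insert, union_assoc]
      rw [h2, card_insert_of_notMem hi]
      push_cast
      refine h1.trans ?_
      linarith
    · intro x y G hxy
      have h3 : (I.biUnion fun i => S i x) = I.biUnion fun i => S i y := by
        refine biUnion_congr rfl fun k hk => ?_
        refine hS i (mem_insert_self _ _) k (hm k hk) ?_ x y hxy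
        rintro rfl
        exact hi hk
      rw [h3]
      exact hΘ i (mem_insert_self _ _) x y _ hxy

end steps

section stars
variable {V : Type} [Fintype V] [DecidableEq V]

open Classical in
theorem star_sum (H : StStarL) [Nonempty V] {ρ : Type} [Fintype ρ] [DecidableEq ρ] {R L a : ℕ}
    (ha : 1 ≤ a) (haL : a ≤ L) (hρ : Fintype.card ρ ≤ R) (hR : R ^ 2 * L ≤ a * Fintype.card V)
    (Θ : Finset (Sym2 V) → Prop) :
    ∑ p : Option ρ → V, ∑ lab : Sym2 V → Fin L,
        (if Θ (low lab a ∪ Pool.Agent.T9h34.Q.star p) then (1 : ℝ) else 0) ≤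
      Fintype.card (Option ρ → V) *
        ((∑ lab : Sym2 V → Fin L, if Θ (low lab a) then (1 : ℝ) else 0) +
        2 * ((L : ℝ) / a) * (R : ℝ) / Fintype.card V * Fintype.card (Sym2 V → Fin L)) := by
  have h2 := H V ρ L a ha haL ((Nat.mul_le_mul_right _ (Nat.pow_le_pow_left hρ 2)).trans hR) Θ
  have : NeZero L := ⟨by omega⟩
  have hM0 : (0 : ℝ) < (Fintype.card (Sym2 V → Fin L) : ℝ) := by exact_mod_cast Fintype.card_pos
  have hP' : (0 : ℝ) < Fintype.card (Option ρ → V) := by exact_mod_cast Fintype.card_pos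
  have hV : (0 : ℝ) < Fintype.card V := by exact_mod_cast Fintype.card_pos
  have hle : 2 * ((L : ℝ) / a) * (Fintype.card ρ : ℝ) / Fintype.card V ≤
      2 * ((L : ℝ) / a) * (R : ℝ) / Fintype.card V := by
    have : (Fintype.card ρ : ℝ) ≤ R := by exact_mod_cast hρ
    gcongr
  rw [prob_eq, prob_eq, Fintype.card_prod, Fintype.sum_prod_type, sum_comm] at h2
  have h3 := h2.trans (add_le_add_right hle _)
  push_cast at h3
  rw [div_le_iff₀ (by positivity)] at h3
  refine h3.trans (le_of_eq ?_)
  generalize (Fintype.card (Sym2 V → Fin L) : ℝ) = M at *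
  generalize 2 * ((L : ℝ) / a) * (R : ℝ) / Fintype.card V = δ at *
  field_simp

end stars

/-- (H3) from (H1) -/
theorem stAllTVL : StStarL → StAllTVL := by
  classical
  intro H V _ _ _ L a₀ B d m j a ha₀ haL hj hR h hh hb C par hpar
  have hL0 : NeZero L := ⟨by omega⟩
  set R := Fintype.card (Rt B d m) with hRdef
  set I : Finset (Ix B d m ⊕ Fin j) := (univ.filter (fun i : Ix B d m => i.1 = a)).disjSum C
    with hI
  have hIC : ∀ i ∈ I, ∀ u, i = Sum.inr u → u ∈ C := by
    rintro i hi u rfl
    rw [hI, mem_disjSum] at hi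
    rcases hi with ⟨b, -, hb⟩ | ⟨v, hv, hb⟩
    · exact absurd hb (by simp)
    · exact Sum.inr.inj hb ▸ hv
  set Θ : Par V B d m j → Finset (Sym2 V) → Prop := fun x G => h (baseG G x.2.2 a) = 1 with hΘdef
  set g : (Sym2 V → Fin L) → Finset (Sym2 V) := fun lab => low lab a₀ with hg
  set δ' : ℝ := 2 * ((L : ℝ) / a₀) * (R : ℝ) / Fintype.card V * Fintype.card (Sym2 V → Fin L)
    with hδ
  have hV : (0 : ℝ) < Fintype.card V := by exact_mod_cast Fintype.card_pos
  have key := all_steps g (stK C par) (rel C par) (δ := δ') I ?_ ?_ Θ ?_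
  · have h1 : ∀ (G : Finset (Sym2 V)) (x : Par V B d m j),
        (if h (baseG G x.2.2 a) < h (baseG G x.2.2 a ∪ allG x.1 x.2.1 x.2.2 a C par)
          then (1 : ℝ) else 0) =
        (if Θ x (G ∪ I.biUnion fun k => stK C par k x) then (1 : ℝ) else 0) -
          (if Θ x G then (1 : ℝ) else 0) := by
      intro G x
      have h2 : Θ x (G ∪ I.biUnion fun k => stK C par k x) ↔
          h (baseG G x.2.2 a ∪ allG x.1 x.2.1 x.2.2 a C par) = 1 := by
        rw [hΘdef]
        dsimp only
        rw [base_union, hI, all_eq C par hpar a x]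
      have h3 : h (baseG G x.2.2 a) ≤ h (baseG G x.2.2 a ∪ allG x.1 x.2.1 x.2.2 a C par) :=
        hh subset_union_left
      rw [if_congr h2 rfl rfl]
      show _ = _ - (if h (baseG G x.2.2 a) = 1 then (1 : ℝ) else 0)
      rcases hb (baseG G x.2.2 a) with e1 | e1 <;>
        rcases hb (baseG G x.2.2 a ∪ allG x.1 x.2.1 x.2.2 a C par) with e2 | e2 <;>
        rw [e1, e2] at h3 ⊢ <;> first | (exfalso; norm_num at h3; done) | norm_num
    have hcard : (I.card : ℝ) ≤ ((d * m + j : ℕ) : ℝ) := by
      have h4 : I.card = (univ.filter (fun i : Ix B d m => i.1 = a)).card + C.card := by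
        rw [hI, card_disjSum]
      have h5 : (univ.filter (fun i : Ix B d m => i.1 = a)).card ≤ d * m := by
        have h6 : (univ.filter (fun i : Ix B d m => i.1 = a)) ⊆
            (univ : Finset (Fin d × Fin m)).image fun y => ((a, y) : Ix B d m) := by
          intro i hi
          rw [mem_filter] at hi
          rw [mem_image]
          exact ⟨i.2, mem_univ _, by rw [← hi.2]⟩
        refine (card_le_card h6).trans (card_image_le.trans ?_)
        rw [card_univ, Fintype.card_prod, Fintype.card_fin, Fintype.card_fin]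
      have h7 : C.card ≤ j := by
        have := card_le_univ C
        rwa [Fintype.card_fin] at this
      have h8 : I.card ≤ d * m + j := by omega
      exact_mod_cast h8
    have hX : (0 : ℝ) < Fintype.card (Par V B d m j) := by exact_mod_cast Fintype.card_pos
    have hM : (0 : ℝ) < Fintype.card (Sym2 V → Fin L) := by exact_mod_cast Fintype.card_pos
    have h9 : (∑ x : (Sym2 V → Fin L) × Par V B d m j,
        if h (baseG (low x.1 a₀) x.2.2.2 a) < h (baseG (low x.1 a₀) x.2.2.2 a ∪
          allG x.2.1 x.2.2.1 x.2.2.2 a C par)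
          then (1 : ℝ) else 0) =
        cnt g (fun x G => Θ x (G ∪ I.biUnion fun k => stK C par k x)) - cnt g Θ := by
      rw [Fintype.sum_prod_type, sum_comm]
      unfold cnt
      rw [← sum_sub_distrib]
      refine sum_congr rfl fun x _ => ?_
      rw [← sum_sub_distrib]
      exact sum_congr rfl fun lab _ => h1 (low lab a₀) x
    rw [prob_eq]
    have h10 : (Fintype.card ((Sym2 V → Fin L) × Par V B d m j) : ℝ) =
        Fintype.card (Sym2 V → Fin L) * Fintype.card (Par V B d m j) := by
      rw [Fintype.card_prod]; push_cast; ring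
    have h11 : (∑ x : (Sym2 V → Fin L) × Par V B d m j,
        if h (baseG (low x.1 a₀) x.2.2.2 a) < h (baseG (low x.1 a₀) x.2.2.2 a ∪
          allG x.2.1 x.2.2.1 x.2.2.2 a C par)
          then (1 : ℝ) else 0) ≤ I.card * (Fintype.card (Par V B d m j) * δ') := by
      rw [h9]; linarith
    have h12 : (∑ x : (Sym2 V → Fin L) × Par V B d m j,
        if h (baseG (low x.1 a₀) x.2.2.2 a) < h (baseG (low x.1 a₀) x.2.2.2 a ∪
          allG x.2.1 x.2.2.1 x.2.2.2 a C par)
          then (1 : ℝ) else 0) / Fintype.card ((Sym2 V → Fin L) × Par V B d m j) ≤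
        I.card * (2 * ((L : ℝ) / a₀) * (R : ℝ) / Fintype.card V) := by
      rw [h10, div_le_iff₀ (by positivity)]
      refine h11.trans (le_of_eq ?_)
      rw [hδ]
      ring
    refine le_trans h12 ?_
    gcongr
  · intro i hi Θ' hΘ'
    match i with
    | Sum.inl b =>
      refine one_step g (fun x : Par V B d m j => x.2.2 b)
        (fun x p => (x.1, x.2.1, Function.update x.2.2 b p)) (fun x p => by simp)
        (fun x p q => by simp) (fun x => by simp) Pool.Agent.T9h34.Q.star ?_ Fintype.card_pos Θ' ?_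
      · exact fun Θ => star_sum H ha₀ haL le_rfl hR Θ
      · intro x p G
        exact (hΘ' x _ G ⟨p, rfl⟩).symm
    | Sum.inr i0 =>
      have hi0 : i0 ∈ C := hIC _ hi i0 rfl
      refine one_step g (getC C par i0) (updC C par i0) (fun x p => get_updC hi0 x p)
        (fun x p q => upd_updC C par i0 x p q) (fun x => upd_getC C par i0 x)
        Pool.Agent.T9h34.Q.star ?_ Fintype.card_pos Θ' ?_
      · exact fun Θ => star_sum H ha₀ haL (card_lf C par i0 hj) hR Θ
      · intro x p G
        exact (hΘ' x _ G ⟨p, rfl⟩).symm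
  · intro i hi k hk hki x y hxy
    exact stK_congr (hIC i hi) (hIC k hk) hki x y hxy
  · intro i hi x y G hxy
    match i with
    | Sum.inl b =>
      obtain ⟨p, rfl⟩ := hxy
      have hba : b.1 = a := by
        rw [hI, mem_disjSum] at hi
        rcases hi with ⟨b', hb', hb⟩ | ⟨v, -, hb⟩
        · rw [mem_filter] at hb'
          rw [← Sum.inl.inj hb]
          exact hb'.2
        · exact absurd hb (by simp)
      have h1 : baseG G (Function.update x.2.2 b p) a = baseG G x.2.2 a := by
        unfold baseG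
        congr 1
        refine biUnion_congr rfl fun k hk => ?_
        rw [Function.update_of_ne]
        rintro rfl
        unfold ixBelow at hk
        rw [mem_filter, hba] at hk
        exact lt_irrefl _ hk.2
      show h (baseG G x.2.2 a) = 1 ↔ h (baseG G (Function.update x.2.2 b p) a) = 1
      rw [h1]
    | Sum.inr i0 =>
      obtain ⟨p, rfl⟩ := hxy
      exact Iff.rfl


end Pool.Agent.T9h12.QL
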