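import Pool.Agent.T9h16.QL.Spec
import Pool.Agent.T9h12.QC.Extra

set_option autoImplicit false

/-!
# Piece (E2) of QL: the edges of the pattern outside the star cover are absorbed by `G_0`
-/

namespace Pool.Agent.T9h12.QL

open Finset
open Pool.Agent.T9h34.Q
open Pool.Agent.T9h16.QL
open Pool.Agent.T9h12.QC (extra_imp)

theorem stExtraL : StChangeL → StExtraL := by
  intro hE V _ _ L a₀ B d m j a ha h hh φ hφ F C A par hAC hp pk ν
  classical
  set K := F.image (Sym2.map φ) \ leafE φ par Cᶜ with hKdef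
  have h1 := hE (Sym2 V) L a₀ K (fun G => CritS h (G, pk, ν) a φ C A par) ha
  have hcard : K.card ≤ F.card := (card_le_card sdiff_subset).trans card_image_le
  have h2 : Nat.card {lab : Sym2 V → Fin L // Crit h (low lab a₀, pk, ν) a
      (F.image (Sym2.map φ)) (A.image φ) (univ.image φ)} ≤
      Nat.card {lab : Sym2 V → Fin L // CritS h (low lab a₀ ∪ K, pk, ν) a φ C A par} := by
    refine Nat.card_le_card_of_injective
      (fun lab => ⟨lab.1, extra_imp hh hφ hp pk ν (low lab.1 a₀) lab.2⟩) ?_
    intro G G' hG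
    exact Subtype.ext (congrArg (fun x => x.1) hG)
  calc a₀ ^ F.card * Nat.card {lab : Sym2 V → Fin L // Crit h (low lab a₀, pk, ν) a
        (F.image (Sym2.map φ)) (A.image φ) (univ.image φ)}
      ≤ a₀ ^ F.card * Nat.card {lab : Sym2 V → Fin L //
          CritS h (low lab a₀ ∪ K, pk, ν) a φ C A par} := Nat.mul_le_mul_left _ h2
    _ = a₀ ^ (F.card - K.card) * (a₀ ^ K.card * Nat.card {lab : Sym2 V → Fin L //
          CritS h (low lab a₀ ∪ K, pk, ν) a φ C A par}) := by
        rw [← mul_assoc, ← pow_add, Nat.sub_add_cancel hcard]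
    _ ≤ a₀ ^ (F.card - K.card) * (L ^ K.card * Nat.card {lab : Sym2 V → Fin L //
          CritS h (low lab a₀, pk, ν) a φ C A par}) := Nat.mul_le_mul_left _ h1
    _ ≤ L ^ (F.card - K.card) * (L ^ K.card * Nat.card {lab : Sym2 V → Fin L //
          CritS h (low lab a₀, pk, ν) a φ C A par}) :=
        Nat.mul_le_mul_right _ (Nat.pow_le_pow_left ha _)
    _ = L ^ F.card * Nat.card {lab : Sym2 V → Fin L //
          CritS h (low lab a₀, pk, ν) a φ C A par} := by
        rw [← mul_assoc, ← pow_add, Nat.sub_add_cancel hcard]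

end Pool.Agent.T9h12.QL
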